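import Mathlib

/-!
# A homogeneous cone that is not a rank-one generated hyperbolicity cone

The cone `K` of pairs `(A, B)` of positive semidefinite `2 × 2` matrices with `A₁₁ = B₁₁` (of
dimension `5`, the dual of the Vinberg cone) is homogeneous. A polynomial with hyperbolicity cone `K`
vanishes where `det A = 0` and where `det B = 0`, so the extreme rays of `K` generated by
`(v vᵀ, w wᵀ)` with `v₁ = w₁ = 1` have rank at least two.
-/

set_option autoImplicit false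

namespace Pool.Agent.Results.MP_3ab8ef_ag.NotRankOne

open MvPolynomial

/-- The univariate polynomial `t ↦ p (x - t e)`. -/
noncomputable def lineSub {n : ℕ} (p : MvPolynomial (Fin n) ℝ) (e x : Fin n → ℝ) :
    Polynomial ℝ :=
  aeval (fun i => Polynomial.C (x i) - Polynomial.X * Polynomial.C (e i)) p

/-- The univariate polynomial `t ↦ p (t e - x)`. -/
noncomputable def line {n : ℕ} (p : MvPolynomial (Fin n) ℝ) (e x : Fin n → ℝ) : Polynomial ℝ :=
  aeval (fun i => Polynomial.X * Polynomial.C (e i) - Polynomial.C (x i)) p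

/-- `p` is homogeneous of degree `d` and hyperbolic along `e`: `p (e) > 0` and for every `x` the
polynomial `t ↦ p (x - t e)` has only real roots. -/
def IsHyperbolic {n : ℕ} (d : ℕ) (p : MvPolynomial (Fin n) ℝ) (e : Fin n → ℝ) : Prop :=
  p.IsHomogeneous d ∧ 0 < eval e p ∧ ∀ x : Fin n → ℝ, (lineSub p e x).Splits

/-- The hyperbolicity cone: all roots of `t ↦ p (t e - x)` are nonnegative. -/
def hypCone {n : ℕ} (p : MvPolynomial (Fin n) ℝ) (e : Fin n → ℝ) : Set (Fin n → ℝ) :=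
  {x | ∀ t : ℝ, (line p e x).IsRoot t → 0 ≤ t}

/-- The rank of `x`: the number of nonzero roots of `t ↦ p (t e - x)`, with multiplicity. -/
noncomputable def hypRank {n : ℕ} (p : MvPolynomial (Fin n) ℝ) (e x : Fin n → ℝ) : ℕ :=
  Multiset.card ((line p e x).roots.filter (fun t => t ≠ 0))

/-- `K` is a pointed full-dimensional closed convex cone on whose interior the group of linear
automorphisms of `K` acts transitively. -/
def IsHomogeneousCone {n : ℕ} (K : Set (Fin n → ℝ)) : Prop :=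
  IsClosed K ∧ Convex ℝ K ∧ (∀ x ∈ K, ∀ c : ℝ, 0 ≤ c → c • x ∈ K) ∧ (interior K).Nonempty ∧
    (∀ x, x ∈ K → -x ∈ K → x = 0) ∧
    ∀ x ∈ interior K, ∀ y ∈ interior K,
      ∃ A : (Fin n → ℝ) ≃ₗ[ℝ] (Fin n → ℝ), A '' K = K ∧ A x = y

/-- `x` generates an extreme ray of `K`: `x` is a nonzero element of `K` and the ray
`{c x : c ≥ 0}` is a face of `K`. -/
def GeneratesExtremeRay {n : ℕ} (K : Set (Fin n → ℝ)) (x : Fin n → ℝ) : Prop :=
  x ∈ K ∧ x ≠ 0 ∧ ∀ y ∈ K, ∀ z ∈ K, (∃ c : ℝ, 0 ≤ c ∧ y + z = c • x) →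
    (∃ c : ℝ, 0 ≤ c ∧ y = c • x) ∧ ∃ c : ℝ, 0 ≤ c ∧ z = c • x

/-! ### Evaluation of the line polynomials -/

theorem eval_line {n : ℕ} (p : MvPolynomial (Fin n) ℝ) (e x : Fin n → ℝ) (t : ℝ) :
    (line p e x).eval t = eval (t • e - x) p := by
  unfold line
  rw [← Polynomial.coe_evalRingHom, MvPolynomial.aeval_def, MvPolynomial.hom_eval₂]
  unfold MvPolynomial.eval
  rw [coe_eval₂Hom]
  congr 1
  · ext r; simp
  · ext i; simp; ring

theorem eval_smul_of_homogeneous {n d : ℕ} {p : MvPolynomial (Fin n) ℝ} (hp : p.IsHomogeneous d)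
    (c : ℝ) (x : Fin n → ℝ) : eval (c • x) p = c ^ d * eval x p := by
  rw [eval_eq, eval_eq, Finset.mul_sum]
  refine Finset.sum_congr rfl fun m hm => ?_
  have h1 : m.degree = d := by
    have := hp (mem_support_iff.1 hm)
    rw [Finsupp.degree_eq_weight_one (R := ℕ)]
    exact this
  have h2 : ∏ i ∈ m.support, (c • x) i ^ m i = c ^ d * ∏ i ∈ m.support, x i ^ m i := by
    simp only [Pi.smul_apply, smul_eq_mul, mul_pow]
    rw [Finset.prod_mul_distrib, Finset.prod_pow_eq_pow_sum]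
    congr 2
  rw [h2]; ring

theorem continuous_eval' {n : ℕ} (p : MvPolynomial (Fin n) ℝ) :
    Continuous (fun x : Fin n → ℝ => eval x p) := MvPolynomial.continuous_eval p

/-! ### The cone -/

/-- The cone of pairs of positive semidefinite matrices `[[x0, x1], [x1, x2]]`,
`[[x0, x3], [x3, x4]]`. -/
def K : Set (Fin 5 → ℝ) :=
  {x | 0 ≤ x 0 ∧ 0 ≤ x 2 ∧ 0 ≤ x 4 ∧ x 1 ^ 2 ≤ x 0 * x 2 ∧ x 3 ^ 2 ≤ x 0 * x 4}

theorem isClosed_K : IsClosed K := by
  have h : K = {x : Fin 5 → ℝ | 0 ≤ x 0} ∩ {x | 0 ≤ x 2} ∩ {x | 0 ≤ x 4} ∩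
      {x | x 1 ^ 2 ≤ x 0 * x 2} ∩ {x | x 3 ^ 2 ≤ x 0 * x 4} := by
    ext x; simp [K, and_assoc]
  rw [h]
  refine ((((isClosed_le ?_ ?_).inter (isClosed_le ?_ ?_)).inter (isClosed_le ?_ ?_)).inter
    (isClosed_le ?_ ?_)).inter (isClosed_le ?_ ?_) <;> fun_prop

/-- A sum of positive semidefinite `2 × 2` matrices is positive semidefinite. -/
theorem det_add {a b c a' b' c' : ℝ} (ha : 0 ≤ a) (hc : 0 ≤ c) (ha' : 0 ≤ a') (hc' : 0 ≤ c')
    (h : b ^ 2 ≤ a * c) (h' : b' ^ 2 ≤ a' * c') :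
    (b + b') ^ 2 ≤ (a + a') * (c + c') := by
  have h1 : (b * b') ^ 2 ≤ (a * c') * (a' * c) := by
    calc (b * b') ^ 2 = b ^ 2 * b' ^ 2 := by ring
      _ ≤ (a * c) * (a' * c') := mul_le_mul h h' (sq_nonneg _) (mul_nonneg ha hc)
      _ = _ := by ring
  have h2 : 2 * (b * b') ≤ a * c' + a' * c := by
    have h3 : (2 * (b * b')) ^ 2 ≤ (a * c' + a' * c) ^ 2 := by
      nlinarith [sq_nonneg (a * c' - a' * c)]
    exact (abs_le_of_sq_le_sq' h3 (by positivity)).2
  nlinarith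

theorem add_mem_K {x y : Fin 5 → ℝ} (hx : x ∈ K) (hy : y ∈ K) : x + y ∈ K := by
  obtain ⟨h0, h2, h4, h1, h3⟩ := hx
  obtain ⟨g0, g2, g4, g1, g3⟩ := hy
  refine ⟨?_, ?_, ?_, ?_, ?_⟩
  · exact add_nonneg h0 g0
  · exact add_nonneg h2 g2
  · exact add_nonneg h4 g4
  · exact det_add h0 h2 g0 g2 h1 g1
  · exact det_add h0 h4 g0 g4 h3 g3

theorem smul_mem_K {x : Fin 5 → ℝ} (hx : x ∈ K) {c : ℝ} (hc : 0 ≤ c) : c • x ∈ K := by
  obtain ⟨h0, h2, h4, h1, h3⟩ := hx
  have hcc : 0 ≤ c ^ 2 := by positivity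
  refine ⟨?_, ?_, ?_, ?_, ?_⟩ <;> simp only [Pi.smul_apply, smul_eq_mul]
  · positivity
  · positivity
  · positivity
  · nlinarith
  · nlinarith

theorem convex_K : Convex ℝ K := by
  intro x hx y hy a b ha hb _
  exact add_mem_K (smul_mem_K hx ha) (smul_mem_K hy hb)

/-- Elements of the interior satisfy strict inequalities. -/
theorem strict_of_interior {x : Fin 5 → ℝ} (hx : x ∈ interior K) :
    0 < x 0 ∧ x 1 ^ 2 < x 0 * x 2 ∧ x 3 ^ 2 < x 0 * x 4 := by
  have h1 : ∀ᶠ t : ℝ in nhds 0, x - t • ![1, 0, 1, 0, 1] ∈ K := by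
    have hc : Continuous (fun t : ℝ => x - t • (![1, 0, 1, 0, 1] : Fin 5 → ℝ)) := by fun_prop
    have h2 : x - (0 : ℝ) • (![1, 0, 1, 0, 1] : Fin 5 → ℝ) ∈ interior K := by simpa using hx
    have h3 := hc.continuousAt.preimage_mem_nhds (isOpen_interior.mem_nhds h2)
    filter_upwards [h3] with t ht using interior_subset ht
  have h2 : ∀ᶠ t : ℝ in nhdsWithin 0 (Set.Ioi 0), x - t • ![1, 0, 1, 0, 1] ∈ K :=
    h1.filter_mono nhdsWithin_le_nhds
  obtain ⟨t, ht, ht0⟩ := (h2.and self_mem_nhdsWithin).exists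
  have ht0' : (0 : ℝ) < t := ht0
  obtain ⟨g0, g2, g4, g1, g3⟩ := ht
  simp at g0 g2 g4 g1 g3
  refine ⟨by linarith, ?_, ?_⟩
  · nlinarith
  · nlinarith

theorem interior_of_strict {x : Fin 5 → ℝ} (h0 : 0 < x 0) (h1 : x 1 ^ 2 < x 0 * x 2)
    (h3 : x 3 ^ 2 < x 0 * x 4) : x ∈ interior K := by
  rw [mem_interior]
  refine ⟨{x | 0 < x 0} ∩ {x | x 1 ^ 2 < x 0 * x 2} ∩ {x | x 3 ^ 2 < x 0 * x 4}, ?_, ?_,
    ⟨⟨h0, h1⟩, h3⟩⟩
  · rintro y ⟨⟨g0, g1⟩, g3⟩
    change 0 < y 0 at g0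
    change y 1 ^ 2 < y 0 * y 2 at g1
    change y 3 ^ 2 < y 0 * y 4 at g3
    have p2 : 0 < y 0 * y 2 := lt_of_le_of_lt (sq_nonneg _) g1
    have p4 : 0 < y 0 * y 4 := lt_of_le_of_lt (sq_nonneg _) g3
    exact ⟨g0.le, (pos_of_mul_pos_right p2 g0.le).le,
      (pos_of_mul_pos_right p4 g0.le).le, g1.le, g3.le⟩
  · refine ((isOpen_lt ?_ ?_).inter (isOpen_lt ?_ ?_)).inter (isOpen_lt ?_ ?_) <;> fun_prop

/-! ### Automorphisms -/

/-- The map `(A, B) ↦ (g A gᵀ, h B hᵀ)` with `g = [[α, 0], [β, γ]]`, `h = [[α, 0], [β', γ']]`. -/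
def L (α β γ β' γ' : ℝ) : (Fin 5 → ℝ) →ₗ[ℝ] (Fin 5 → ℝ) where
  toFun x := ![α ^ 2 * x 0, α * β * x 0 + α * γ * x 1,
    β ^ 2 * x 0 + 2 * β * γ * x 1 + γ ^ 2 * x 2, α * β' * x 0 + α * γ' * x 3,
    β' ^ 2 * x 0 + 2 * β' * γ' * x 3 + γ' ^ 2 * x 4]
  map_add' x y := by
    ext i; fin_cases i <;> simp <;> ring
  map_smul' c x := by
    ext i; fin_cases i <;> simp <;> ring

theorem L_apply (α β γ β' γ' : ℝ) (x : Fin 5 → ℝ) : L α β γ β' γ' x =
    ![α ^ 2 * x 0, α * β * x 0 + α * γ * x 1,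
    β ^ 2 * x 0 + 2 * β * γ * x 1 + γ ^ 2 * x 2, α * β' * x 0 + α * γ' * x 3,
    β' ^ 2 * x 0 + 2 * β' * γ' * x 3 + γ' ^ 2 * x 4] := rfl

/-- `g A gᵀ` is positive semidefinite. -/
theorem psd_conj {a b c α β γ : ℝ} (ha : 0 ≤ a) (hc : 0 ≤ c) (h : b ^ 2 ≤ a * c) :
    0 ≤ β ^ 2 * a + 2 * β * γ * b + γ ^ 2 * c ∧
    (α * β * a + α * γ * b) ^ 2 ≤ (α ^ 2 * a) * (β ^ 2 * a + 2 * β * γ * b + γ ^ 2 * c) := by
  constructor
  · rcases ha.eq_or_lt with h0 | h0
    · rw [← h0] at h ⊢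
      have hb : b = 0 := by nlinarith [sq_nonneg b]
      rw [hb]
      have : 0 ≤ γ ^ 2 * c := by positivity
      linarith
    · have h1 : 0 ≤ a * (β ^ 2 * a + 2 * β * γ * b + γ ^ 2 * c) := by
        have : a * (β ^ 2 * a + 2 * β * γ * b + γ ^ 2 * c) =
          (β * a + γ * b) ^ 2 + γ ^ 2 * (a * c - b ^ 2) := by ring
        rw [this]
        have : 0 ≤ a * c - b ^ 2 := by linarith
        positivity
      exact nonneg_of_mul_nonneg_right h1 h0
  · have h1 : (α ^ 2 * a) * (β ^ 2 * a + 2 * β * γ * b + γ ^ 2 * c) -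
      (α * β * a + α * γ * b) ^ 2 = α ^ 2 * γ ^ 2 * (a * c - b ^ 2) := by ring
    have h2 : 0 ≤ a * c - b ^ 2 := by linarith
    have h3 : 0 ≤ α ^ 2 * γ ^ 2 * (a * c - b ^ 2) := by positivity
    linarith

theorem L_mem {α β γ β' γ' : ℝ} {x : Fin 5 → ℝ} (hx : x ∈ K) : L α β γ β' γ' x ∈ K := by
  obtain ⟨h0, h2, h4, h1, h3⟩ := hx
  obtain ⟨a1, a2⟩ := psd_conj (α := α) (β := β) (γ := γ) h0 h2 h1
  obtain ⟨b1, b2⟩ := psd_conj (α := α) (β := β') (γ := γ') h0 h4 h3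
  refine ⟨?_, ?_, ?_, ?_, ?_⟩ <;> simp only [L_apply]
  · simpa using mul_nonneg (sq_nonneg α) h0
  · simpa using a1
  · simpa using b1
  · simpa using a2
  · simpa using b2

/-- Every element of the interior is the image of `(1, 0, 1, 0, 1)` under an automorphism. -/
theorem exists_aut {x : Fin 5 → ℝ} (hx : x ∈ interior K) :
    ∃ A : (Fin 5 → ℝ) ≃ₗ[ℝ] (Fin 5 → ℝ), A '' K = K ∧ A ![1, 0, 1, 0, 1] = x := by
  obtain ⟨h0, h1, h3⟩ := strict_of_interior hx
  set α := Real.sqrt (x 0) with hα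
  have hα2 : α ^ 2 = x 0 := Real.sq_sqrt h0.le
  have hα0 : α ≠ 0 := (Real.sqrt_pos.2 h0).ne'
  set β := x 1 / α with hβ
  set β' := x 3 / α with hβ'
  have hβ2 : β ^ 2 = x 1 ^ 2 / x 0 := by rw [hβ, div_pow, hα2]
  have hβ'2 : β' ^ 2 = x 3 ^ 2 / x 0 := by rw [hβ', div_pow, hα2]
  have hg : 0 < x 2 - β ^ 2 := by
    rw [hβ2, sub_pos, div_lt_iff₀ h0]; linarith
  have hg' : 0 < x 4 - β' ^ 2 := by
    rw [hβ'2, sub_pos, div_lt_iff₀ h0]; linarith
  set γ := Real.sqrt (x 2 - β ^ 2) with hγ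
  set γ' := Real.sqrt (x 4 - β' ^ 2) with hγ'
  have hγ2 : γ ^ 2 = x 2 - β ^ 2 := Real.sq_sqrt hg.le
  have hγ'2 : γ' ^ 2 = x 4 - β' ^ 2 := Real.sq_sqrt hg'.le
  have hγ0 : γ ≠ 0 := (Real.sqrt_pos.2 hg).ne'
  have hγ'0 : γ' ≠ 0 := (Real.sqrt_pos.2 hg').ne'
  have hinv1 : ∀ y, L α⁻¹ (-(β / (α * γ))) γ⁻¹ (-(β' / (α * γ'))) γ'⁻¹ (L α β γ β' γ' y) = y := by
    intro y
    ext i
    rw [L_apply, L_apply]
    fin_cases i <;> simp <;> field_simp <;> ring
  have hinv2 : ∀ y, L α β γ β' γ' (L α⁻¹ (-(β / (α * γ))) γ⁻¹ (-(β' / (α * γ'))) γ'⁻¹ y) = y := by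
    intro y
    ext i
    rw [L_apply, L_apply]
    fin_cases i <;> simp <;> field_simp <;> ring
  refine ⟨LinearEquiv.ofLinearMap (L α β γ β' γ') (L α⁻¹ (-(β / (α * γ))) γ⁻¹ (-(β' / (α * γ'))) γ'⁻¹)
    (LinearMap.ext hinv2) (LinearMap.ext hinv1), ?_, ?_⟩
  · apply Set.Subset.antisymm
    · rintro _ ⟨y, hy, rfl⟩
      exact L_mem hy
    · intro y hy
      exact ⟨_, L_mem hy, hinv2 y⟩
  · change L α β γ β' γ' ![1, 0, 1, 0, 1] = x
    rw [L_apply]
    ext i
    fin_cases i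
    · simpa using hα2
    · simp [hβ]; field_simp
    · simp [hγ2]
    · simp [hβ']; field_simp
    · simp [hγ'2]

theorem isHomogeneousCone_K : IsHomogeneousCone K := by
  refine ⟨isClosed_K, convex_K, fun x hx c hc => smul_mem_K hx hc, ?_, ?_, ?_⟩
  · exact ⟨![1, 0, 1, 0, 1], interior_of_strict (by simp) (by simp) (by simp)⟩
  · rintro x ⟨h0, h2, h4, h1, h3⟩ ⟨g0, g2, g4, -, -⟩
    simp only [Pi.neg_apply, neg_nonneg] at g0 g2 g4
    have e0 : x 0 = 0 := le_antisymm g0 h0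
    have e2 : x 2 = 0 := le_antisymm g2 h2
    have e4 : x 4 = 0 := le_antisymm g4 h4
    have e1 : x 1 = 0 := by rw [e0, zero_mul] at h1; nlinarith [sq_nonneg (x 1)]
    have e3 : x 3 = 0 := by rw [e0, zero_mul] at h3; nlinarith [sq_nonneg (x 3)]
    ext i
    fin_cases i <;> assumption
  · intro x hx y hy
    obtain ⟨A, hA, hAx⟩ := exists_aut hx
    obtain ⟨B, hB, hBy⟩ := exists_aut hy
    refine ⟨A.symm.trans B, ?_, ?_⟩
    · have h1 : (A.symm.trans B : (Fin 5 → ℝ) → (Fin 5 → ℝ)) = B ∘ A.symm := rfl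
      rw [h1, Set.image_comp]
      have : A.symm '' K = K := by
        apply Set.Subset.antisymm
        · rintro _ ⟨z, hz, rfl⟩
          rw [← hA] at hz
          obtain ⟨w, hw, rfl⟩ := hz
          rwa [LinearEquiv.symm_apply_apply]
        · intro z hz
          refine ⟨A z, ?_, A.symm_apply_apply z⟩
          rw [← hA]
          exact ⟨z, hz, rfl⟩
      rw [this, hB]
    · rw [LinearEquiv.trans_apply, ← hAx, LinearEquiv.symm_apply_apply, hBy]

theorem extremeRay (a b : ℝ) : GeneratesExtremeRay K ![1, a, a ^ 2, b, b ^ 2] := by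
  have key : ∀ y ∈ K, ∀ z ∈ K, ∀ c : ℝ, y + z = c • ![1, a, a ^ 2, b, b ^ 2] →
      ∃ c : ℝ, 0 ≤ c ∧ y = c • ![1, a, a ^ 2, b, b ^ 2] := by
    rintro y ⟨h0, h2, h4, h1, h3⟩ z ⟨g0, g2, g4, g1, g3⟩ c hc
    have c0 := congrFun hc 0
    have c1 := congrFun hc 1
    have c2 := congrFun hc 2
    have c3 := congrFun hc 3
    have c4 := congrFun hc 4
    simp at c0 c1 c2 c3 c4
    obtain ⟨p1, -⟩ := psd_conj (α := 0) (β := -a) (γ := 1) h0 h2 h1
    obtain ⟨q1, -⟩ := psd_conj (α := 0) (β := -a) (γ := 1) g0 g2 g1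
    obtain ⟨p3, -⟩ := psd_conj (α := 0) (β := -b) (γ := 1) h0 h4 h3
    obtain ⟨q3, -⟩ := psd_conj (α := 0) (β := -b) (γ := 1) g0 g4 g3
    have e2 : y 2 = 2 * a * y 1 - a ^ 2 * y 0 := by
      have : (y 2 + z 2) = 2 * a * (y 1 + z 1) - a ^ 2 * (y 0 + z 0) := by
        rw [c0, c1, c2]; ring
      nlinarith
    have e4 : y 4 = 2 * b * y 3 - b ^ 2 * y 0 := by
      have : (y 4 + z 4) = 2 * b * (y 3 + z 3) - b ^ 2 * (y 0 + z 0) := by
        rw [c0, c3, c4]; ring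
      nlinarith
    have e1 : y 1 = a * y 0 := by
      rw [e2] at h1
      have : (y 1 - a * y 0) ^ 2 ≤ 0 := by nlinarith
      have : y 1 - a * y 0 = 0 := by nlinarith [sq_nonneg (y 1 - a * y 0)]
      linarith
    have e3 : y 3 = b * y 0 := by
      rw [e4] at h3
      have : (y 3 - b * y 0) ^ 2 ≤ 0 := by nlinarith
      have : y 3 - b * y 0 = 0 := by nlinarith [sq_nonneg (y 3 - b * y 0)]
      linarith
    refine ⟨y 0, h0, ?_⟩
    ext i
    fin_cases i
    · simp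
    · simp [e1, mul_comm]
    · simp [e2, e1]; ring
    · simp [e3, mul_comm]
    · simp [e4, e3]; ring
  refine ⟨⟨by simp, by simp; positivity, by simp; positivity, by simp, by simp⟩, ?_, ?_⟩
  · intro h
    have := congrFun h 0
    simp at this
  · rintro y hy z hz ⟨c, _, h⟩
    exact ⟨key y hy z hz c h, key z hz y hy c (by rw [add_comm]; exact h)⟩

/-! ### Polynomials with hyperbolicity cone `K` -/

section main

variable {d : ℕ} {p : MvPolynomial (Fin 5) ℝ} {e : Fin 5 → ℝ}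

/-- `e` is an interior point of the hyperbolicity cone. -/
theorem mem_interior_hypCone (hp : p.IsHomogeneous d) (he : 0 < eval e p) :
    e ∈ interior (hypCone p e) := by
  have h1 : ∀ᶠ x in nhds e, 0 < eval x p :=
    (continuous_eval' p).continuousAt.eventually (lt_mem_nhds he)
  obtain ⟨δ, hδ, hball⟩ := Metric.eventually_nhds_iff.1 h1
  rw [mem_interior]
  refine ⟨Metric.ball e δ, ?_, Metric.isOpen_ball, Metric.mem_ball_self hδ⟩
  intro x hx t ht
  by_contra htn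
  push Not at htn
  have ht' : eval (t • e - x) p = 0 := by rw [← eval_line]; exact ht
  have hpos : 0 < 1 - t := by linarith
  have h2 : t • e - x = (-(1 - t)) • (e + (1 - t)⁻¹ • (x - e)) := by
    rw [smul_add, smul_smul]
    have : -(1 - t) * (1 - t)⁻¹ = -1 := by field_simp
    rw [this]
    module
  rw [h2, eval_smul_of_homogeneous hp] at ht'
  have h3 : 0 < eval (e + (1 - t)⁻¹ • (x - e)) p := by
    apply hball
    rw [dist_eq_norm, add_sub_cancel_left, norm_smul, norm_inv, Real.norm_of_nonneg hpos.le]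
    have h4 : ‖x - e‖ < δ := by rwa [← dist_eq_norm]
    have h5 : (1 - t)⁻¹ ≤ 1 := inv_le_one_of_one_le₀ (by linarith)
    calc (1 - t)⁻¹ * ‖x - e‖ ≤ 1 * ‖x - e‖ := mul_le_mul_of_nonneg_right h5 (norm_nonneg _)
      _ < δ := by linarith
  rcases mul_eq_zero.1 ht' with h | h
  · have : (-(1 - t)) ^ d ≠ 0 := pow_ne_zero _ (by linarith)
    exact this h
  · exact h3.ne' h

/-- If `x` is in the cone but `x - ε e` is not for all small `ε > 0`, then `p (-x) = 0`. -/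
theorem eval_neg_eq_zero (hK : K = hypCone p e) {x : Fin 5 → ℝ} (hx : x ∈ K)
    (hout : ∀ ε : ℝ, 0 < ε → x - ε • e ∉ K) : eval (-x) p = 0 := by
  have h1 : ∀ ε : ℝ, 0 < ε → ∃ τ : ℝ, 0 ≤ τ ∧ τ < ε ∧ eval (τ • e - x) p = 0 := by
    intro ε hε
    have h2 := hout ε hε
    rw [hK] at h2
    simp only [hypCone] at h2
    change ¬ ∀ t : ℝ, _ at h2
    push Not at h2
    obtain ⟨t, ht, ht0⟩ := h2
    have h3 : eval ((t + ε) • e - x) p = 0 := by
      have h4 : eval (t • e - (x - ε • e)) p = 0 := by rw [← eval_line]; exact ht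
      rw [← h4]
      congr 1
      congr 1
      module
    rw [hK] at hx
    have h5 : 0 ≤ t + ε := hx (t + ε) (by
      change (line p e x).eval (t + ε) = 0
      rw [eval_line]; exact h3)
    exact ⟨t + ε, h5, by linarith, h3⟩
  by_contra hne
  have hc : Continuous (fun τ : ℝ => eval (τ • e - x) p) :=
    (continuous_eval' p).comp (by fun_prop)
  have h2 : ∀ᶠ τ in nhds (0 : ℝ), eval (τ • e - x) p ≠ 0 := by
    apply hc.continuousAt.eventually_ne
    simpa using hne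
  obtain ⟨δ, hδ, hball⟩ := Metric.eventually_nhds_iff.1 h2
  obtain ⟨τ, hτ0, hτδ, hτ⟩ := h1 δ hδ
  refine hball ?_ hτ
  rw [dist_zero_right, Real.norm_of_nonneg hτ0]
  exact hτδ

theorem eval_eq_zero_of_neg (hp : p.IsHomogeneous d) {x : Fin 5 → ℝ} (h : eval (-x) p = 0) :
    eval x p = 0 := by
  have h1 : x = (-1 : ℝ) • (-x) := by simp
  rw [h1, eval_smul_of_homogeneous hp, h, mul_zero]

/-- A polynomial function of one variable that vanishes for all large arguments is zero. -/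
theorem zero_of_large {q : Polynomial ℝ} {N : ℝ} (h : ∀ s, N ≤ s → q.eval s = 0) : q = 0 := by
  apply Polynomial.eq_zero_of_infinite_isRoot
  refine Set.Infinite.mono ?_ (Set.Ici_infinite N)
  intro s hs
  exact h s hs

theorem exists_shift (p : MvPolynomial (Fin 5) ℝ) (w v : Fin 5 → ℝ) :
    ∃ q : Polynomial ℝ, ∀ s : ℝ, q.eval s = eval (w + s • v) p := by
  refine ⟨aeval (fun i => Polynomial.C (w i) + Polynomial.X * Polynomial.C (v i)) p, ?_⟩
  intro s
  rw [← Polynomial.coe_evalRingHom, MvPolynomial.aeval_def, MvPolynomial.hom_eval₂]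
  unfold MvPolynomial.eval
  rw [coe_eval₂Hom]
  congr 1
  · ext r; simp
  · ext i; simp; ring

/-- `p` vanishes where the first matrix is `± u uᵀ` with `u₁ ≠ 0`. -/
theorem vanish_A (hp : p.IsHomogeneous d) (he : 0 < eval e p) (hK : K = hypCone p e)
    (w : Fin 5 → ℝ) (h0 : 0 < w 0) (h1 : w 1 ^ 2 = w 0 * w 2) : eval w p = 0 := by
  have heint : e ∈ interior K := by rw [hK]; exact mem_interior_hypCone hp he
  obtain ⟨e0, e1, e3⟩ := strict_of_interior heint
  -- add a large multiple of the last basis vector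
  have hbig : ∀ s : ℝ, w 3 ^ 2 / w 0 + |w 4| ≤ s →
      eval (w + s • ![0, 0, 0, 0, 1]) p = 0 := by
    intro s hs
    have hw2 : 0 ≤ w 2 := by
      have : 0 ≤ w 0 * w 2 := by rw [← h1]; positivity
      exact nonneg_of_mul_nonneg_right this h0
    have hs4 : w 3 ^ 2 / w 0 ≤ w 4 + s := by
      have := neg_abs_le (w 4)
      linarith
    have hs0 : 0 ≤ w 4 + s := le_trans (by positivity) hs4
    have hmem : w + s • ![0, 0, 0, 0, 1] ∈ K := by
      refine ⟨?_, ?_, ?_, ?_, ?_⟩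
      · simpa using h0.le
      · simpa using hw2
      · simpa using hs0
      · simpa using h1.le
      · have : w 3 ^ 2 ≤ w 0 * (w 4 + s) := by
          rw [div_le_iff₀ h0] at hs4
          linarith
        simpa using this
    refine eval_eq_zero_of_neg hp (eval_neg_eq_zero hK hmem ?_)
    rintro ε hε ⟨g0, g2, -, g1, -⟩
    have v0 : (![0, 0, 0, 0, 1] : Fin 5 → ℝ) 0 = 0 := rfl
    have v1 : (![0, 0, 0, 0, 1] : Fin 5 → ℝ) 1 = 0 := rfl
    have v2 : (![0, 0, 0, 0, 1] : Fin 5 → ℝ) 2 = 0 := rfl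
    simp only [Pi.sub_apply, Pi.add_apply, Pi.smul_apply, smul_eq_mul, v0, v1, v2, mul_zero,
      add_zero] at g0 g2 g1
    -- the vector `(w 1, - w 0)` is in the kernel of the matrix of `w`
    obtain ⟨q1, -⟩ := psd_conj (α := 0) (β := w 1) (γ := -w 0) g0 g2 g1
    have q2 : w 1 ^ 2 * (w 0 - ε * e 0) + 2 * w 1 * (-w 0) * (w 1 - ε * e 1) +
        (-w 0) ^ 2 * (w 2 - ε * e 2) =
        w 0 * (w 0 * w 2 - w 1 ^ 2) - ε * (w 1 ^ 2 * e 0 - 2 * w 1 * w 0 * e 1 + w 0 ^ 2 * e 2) := by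
      ring
    rw [q2, h1, sub_self, mul_zero, zero_sub] at q1
    have q3 : 0 < e 0 * (w 1 ^ 2 * e 0 - 2 * w 1 * w 0 * e 1 + w 0 ^ 2 * e 2) := by
      have : e 0 * (w 1 ^ 2 * e 0 - 2 * w 1 * w 0 * e 1 + w 0 ^ 2 * e 2) =
          (w 1 * e 0 - w 0 * e 1) ^ 2 + w 0 ^ 2 * (e 0 * e 2 - e 1 ^ 2) := by ring
      rw [this]
      have : 0 < e 0 * e 2 - e 1 ^ 2 := by linarith
      positivity
    have q4 := pos_of_mul_pos_right q3 e0.le
    rw [← h1] at q1
    nlinarith [mul_pos hε q4]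
  obtain ⟨q, hq⟩ := exists_shift p w ![0, 0, 0, 0, 1]
  have hq0 : q = 0 := zero_of_large (fun s hs => by rw [hq]; exact hbig s hs)
  have := hq 0
  rw [hq0] at this
  simpa using this.symm

/-- The polynomial with the two matrices exchanged. -/
theorem vanish_B (hp : p.IsHomogeneous d) (he : 0 < eval e p) (hK : K = hypCone p e)
    (w : Fin 5 → ℝ) (h0 : 0 < w 0) (h1 : w 3 ^ 2 = w 0 * w 4) : eval w p = 0 := by
  have heint : e ∈ interior K := by rw [hK]; exact mem_interior_hypCone hp he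
  obtain ⟨e0, e1, e3⟩ := strict_of_interior heint
  have hbig : ∀ s : ℝ, w 1 ^ 2 / w 0 + |w 2| ≤ s →
      eval (w + s • ![0, 0, 1, 0, 0]) p = 0 := by
    intro s hs
    have hw4 : 0 ≤ w 4 := by
      have : 0 ≤ w 0 * w 4 := by rw [← h1]; positivity
      exact nonneg_of_mul_nonneg_right this h0
    have hs2 : w 1 ^ 2 / w 0 ≤ w 2 + s := by
      have := neg_abs_le (w 2)
      linarith
    have hs0 : 0 ≤ w 2 + s := le_trans (by positivity) hs2
    have hmem : w + s • ![0, 0, 1, 0, 0] ∈ K := by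
      refine ⟨?_, ?_, ?_, ?_, ?_⟩
      · simpa using h0.le
      · simpa using hs0
      · simpa using hw4
      · have : w 1 ^ 2 ≤ w 0 * (w 2 + s) := by
          rw [div_le_iff₀ h0] at hs2
          linarith
        simpa using this
      · simpa using h1.le
    refine eval_eq_zero_of_neg hp (eval_neg_eq_zero hK hmem ?_)
    rintro ε hε ⟨g0, -, g4, -, g3⟩
    have v0 : (![0, 0, 1, 0, 0] : Fin 5 → ℝ) 0 = 0 := rfl
    have v3 : (![0, 0, 1, 0, 0] : Fin 5 → ℝ) 3 = 0 := rfl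
    have v4 : (![0, 0, 1, 0, 0] : Fin 5 → ℝ) 4 = 0 := rfl
    simp only [Pi.sub_apply, Pi.add_apply, Pi.smul_apply, smul_eq_mul, v0, v3, v4, mul_zero,
      add_zero] at g0 g4 g3
    obtain ⟨q1, -⟩ := psd_conj (α := 0) (β := w 3) (γ := -w 0) g0 g4 g3
    have q2 : w 3 ^ 2 * (w 0 - ε * e 0) + 2 * w 3 * (-w 0) * (w 3 - ε * e 3) +
        (-w 0) ^ 2 * (w 4 - ε * e 4) =
        w 0 * (w 0 * w 4 - w 3 ^ 2) - ε * (w 3 ^ 2 * e 0 - 2 * w 3 * w 0 * e 3 + w 0 ^ 2 * e 4) := by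
      ring
    rw [q2, h1, sub_self, mul_zero, zero_sub] at q1
    have q3 : 0 < e 0 * (w 3 ^ 2 * e 0 - 2 * w 3 * w 0 * e 3 + w 0 ^ 2 * e 4) := by
      have : e 0 * (w 3 ^ 2 * e 0 - 2 * w 3 * w 0 * e 3 + w 0 ^ 2 * e 4) =
          (w 3 * e 0 - w 0 * e 3) ^ 2 + w 0 ^ 2 * (e 0 * e 4 - e 3 ^ 2) := by ring
      rw [this]
      have : 0 < e 0 * e 4 - e 3 ^ 2 := by linarith
      positivity
    have q4 := pos_of_mul_pos_right q3 e0.le
    rw [← h1] at q1
    nlinarith [mul_pos hε q4]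
  obtain ⟨q, hq⟩ := exists_shift p w ![0, 0, 1, 0, 0]
  have hq0 : q = 0 := zero_of_large (fun s hs => by rw [hq]; exact hbig s hs)
  have := hq 0
  rw [hq0] at this
  simpa using this.symm

theorem line_ne_zero (he : 0 < eval e p) (hp : p.IsHomogeneous d) (x : Fin 5 → ℝ) :
    line p e x ≠ 0 := by
  intro h
  have h1 : ∀ s : ℝ, s ≠ 0 → eval (e - s • x) p = 0 := by
    intro s hs
    have h2 : eval (s⁻¹ • e - x) p = 0 := by rw [← eval_line, h]; simp
    have h3 : e - s • x = s • (s⁻¹ • e - x) := by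
      rw [smul_sub, smul_smul, mul_inv_cancel₀ hs, one_smul]
    rw [h3, eval_smul_of_homogeneous hp, h2, mul_zero]
  have hc : Continuous (fun s : ℝ => eval (e - s • x) p) :=
    (continuous_eval' p).comp (by fun_prop)
  have h2 : ∀ᶠ s in nhds (0 : ℝ), eval (e - s • x) p ≠ 0 := by
    apply hc.continuousAt.eventually_ne
    simpa using he.ne'
  obtain ⟨δ, hδ, hball⟩ := Metric.eventually_nhds_iff.1 h2
  refine hball ?_ (h1 (δ / 2) (by positivity))
  rw [dist_zero_right, Real.norm_of_nonneg (by positivity)]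
  linarith

/-- For every `p` with hyperbolicity cone `K` some extreme ray of `K` has rank at least `2`. -/
theorem exists_ray (hp : p.IsHomogeneous d) (he : 0 < eval e p) (hK : K = hypCone p e) :
    ∃ x, GeneratesExtremeRay K x ∧ 2 ≤ hypRank p e x := by
  have heint : e ∈ interior K := by rw [hK]; exact mem_interior_hypCone hp he
  obtain ⟨e0, e1, e3⟩ := strict_of_interior heint
  set D := e 0 * e 2 - e 1 ^ 2 with hD
  set D' := e 0 * e 4 - e 3 ^ 2 with hD'
  have hDpos : 0 < D := by rw [hD]; linarith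
  have hD'pos : 0 < D' := by rw [hD']; linarith
  -- choose the ray
  set a := (e 1 - Real.sqrt D) / e 0 with ha
  set b := (e 3 - Real.sqrt (2 * D')) / e 0 with hb
  have ha2 : (e 1 - a * e 0) ^ 2 = D := by
    have : e 1 - a * e 0 = Real.sqrt D := by rw [ha]; field_simp; ring
    rw [this, Real.sq_sqrt hDpos.le]
  have hb2 : (e 3 - b * e 0) ^ 2 = 2 * D' := by
    have : e 3 - b * e 0 = Real.sqrt (2 * D') := by rw [hb]; field_simp; ring
    rw [this, Real.sq_sqrt (by positivity)]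
  refine ⟨![1, a, a ^ 2, b, b ^ 2], extremeRay a b, ?_⟩
  have hne := line_ne_zero he hp ![1, a, a ^ 2, b, b ^ 2]
  -- the two roots
  have hrA : eval ((2 / e 0) • e - ![1, a, a ^ 2, b, b ^ 2]) p = 0 := by
    apply vanish_A hp he hK
    · simp; rw [div_mul_cancel₀ _ e0.ne']; norm_num
    · simp
      rw [div_mul_cancel₀ _ e0.ne']
      field_simp
      rw [hD] at ha2
      nlinarith
  have hrB : eval ((3 / e 0) • e - ![1, a, a ^ 2, b, b ^ 2]) p = 0 := by
    apply vanish_B hp he hK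
    · simp; rw [div_mul_cancel₀ _ e0.ne']; norm_num
    · simp
      rw [div_mul_cancel₀ _ e0.ne']
      field_simp
      rw [hD'] at hb2
      nlinarith
  have mA : (2 / e 0) ∈ (line p e ![1, a, a ^ 2, b, b ^ 2]).roots := by
    rw [Polynomial.mem_roots hne]
    change Polynomial.eval _ _ = 0
    rw [eval_line]; exact hrA
  have mB : (3 / e 0) ∈ (line p e ![1, a, a ^ 2, b, b ^ 2]).roots := by
    rw [Polynomial.mem_roots hne]
    change Polynomial.eval _ _ = 0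
    rw [eval_line]; exact hrB
  have hAB : (2 / e 0) ≠ (3 / e 0) := by
    intro h
    rw [div_left_inj' e0.ne'] at h
    norm_num at h
  unfold hypRank
  have hsub : ({2 / e 0, 3 / e 0} : Multiset ℝ) ≤
      (line p e ![1, a, a ^ 2, b, b ^ 2]).roots.filter (fun t => t ≠ 0) := by
    rw [Multiset.le_iff_subset (by simp [hAB])]
    intro t ht
    simp only [Multiset.insert_eq_cons, Multiset.mem_cons, Multiset.mem_singleton] at ht
    rw [Multiset.mem_filter]
    rcases ht with rfl | rfl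
    · exact ⟨mA, by positivity⟩
    · exact ⟨mB, by positivity⟩
  have := Multiset.card_le_card hsub
  simpa using this

end main

/-- There is a homogeneous cone `K` such that whenever `K` is the hyperbolicity cone of `p` with
respect to `e`, some extreme ray of `K` is generated by an element of rank at least two. -/
theorem result : ∃ (n : ℕ) (K : Set (Fin n → ℝ)), IsHomogeneousCone K ∧
    ∀ (d : ℕ) (p : MvPolynomial (Fin n) ℝ) (e : Fin n → ℝ), IsHyperbolic d p e →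
      K = hypCone p e → ∃ x, GeneratesExtremeRay K x ∧ 2 ≤ hypRank p e x :=
  ⟨5, K, isHomogeneousCone_K, fun _ _ _ hp hK => exists_ray hp.1 hp.2.1 hK⟩

end Pool.Agent.Results.MP_3ab8ef_ag.NotRankOne
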